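import Pool.Agent.Helper79.HD.Tape

/-!
# Few pentagons: a dominant face
-/

namespace Pool.Agent.Helper79.HD

open Finset Pool.Agent.Helper79.HX

theorem hub_only : ∀ n H a b N : ℕ, a + b ≤ n → 3 * a + 2 * b ≤ H → 2 * a + b + 1 ≤ N →
    WN H 0 a b N := by
  intro n
  induction n using Nat.strong_induction_on with
  | _ n ih =>
  intro H a b N hn h1 h2
  rcases Nat.eq_zero_or_pos b with hb | hb
  swap
  · exact (ih (n - 1) (by omega) (H - 2) a (b - 1) (N - 1) (by omega) (by omega)
      (by omega)).Q.to (by omega) rfl rfl (by omega) (by omega)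
  subst hb
  rcases (by omega : a = 0 ∨ a = 1 ∨ 2 ≤ a) with ha | ha | ha
  · subst ha
    exact (WN_nil.grow H).to (by omega) rfl rfl rfl le_rfl
  · subst ha
    exact ((WN_nil (N := 0)).grow (H - 3)).T.to (by omega) rfl rfl rfl (by omega)
  · exact (ih (n - 2) (by omega) (H - 6) (a - 2) 0 (N - 4) (by omega) (by omega)
      (by omega)).TT.to (by omega) rfl (by omega) rfl (by omega)

/-- no quadrangles -/
theorem star4 : ∀ n : ℕ,
    (∀ (H : ℕ) (C : Multiset ℕ) (a N : ℕ), H + C.sum + 2 ≤ n → (∀ c ∈ C, 3 ≤ c) →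
      C.sum + Multiset.card C ≤ 2 * a → 3 * a + 2 * Multiset.card C ≤ H + C.sum →
      a + 4 * Multiset.card C + 4 ≤ N → 2 * a + 2 * Multiset.card C + 3 ≤ N + C.sum →
      WN H C a 0 N) ∧
    (∀ (H s : ℕ) (C : Multiset ℕ) (a N : ℕ), H + s + C.sum ≤ n → 1 ≤ s → (∀ c ∈ C, 3 ≤ c) →
      2 * (s / 2) + C.sum + Multiset.card C ≤ 2 * a →
      3 * a + 2 * Multiset.card C + 3 ≤ H + s + C.sum →
      a + 4 * Multiset.card C + 5 ≤ N → 2 * a + 2 * Multiset.card C + 5 ≤ N + s + C.sum →
      W 4 H s C a 0 N) := by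
  intro n
  induction n using Nat.strong_induction_on with
  | _ n ih =>
  constructor
  · intro H C a N hn hC h1 h2 h3 h4
    rcases Multiset.empty_or_exists_mem C with rfl | ⟨c, hc⟩
    · simp only [Multiset.sum_zero, Multiset.card_zero] at h1 h2 h3 h4
      exact hub_only (a + 0) H a 0 N le_rfl (by omega) (by omega)
    · obtain ⟨C', rfl⟩ := Multiset.exists_cons_of_mem hc
      have hc3 := hC c (by simp)
      simp only [Multiset.sum_cons, Multiset.card_cons] at hn h1 h2 h3 h4
      exact ((ih (n - 1) (by omega)).2 H (c + 1) C' a N (by omega) (by omega)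
        (fun c' h => hC c' (Multiset.mem_cons_of_mem h)) (by omega) (by omega) (by omega)
        (by omega)).fresh4
  · intro H s C a N hn hs hC h1 h2 h3 h4
    rcases Nat.lt_or_ge s 2 with hs1 | hs2
    · obtain rfl : s = 1 := by omega
      exact ((ih (n - 1) (by omega)).1 (H - 2) C a (N - 1) (by omega) hC (by omega) (by omega)
        (by omega) (by omega)).fin4.to rfl (by omega) rfl rfl rfl rfl (by omega)
    · rcases Nat.lt_or_ge (2 * a) (2 * ((s - 1) / 2) + C.sum + Multiset.card C + 2) with h5 | h5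
      · exact ((ih (n - 1) (by omega)).2 (H - 1) (s - 2) C (a - 1) (N - 1) (by omega) (by omega)
          hC (by omega) (by omega) (by omega) (by omega)).symm.string.symm.to rfl (by omega)
          (by omega) rfl (by omega) rfl (by omega)
      · exact ((ih (n - 1) (by omega)).2 (H - 2) (s - 1) C (a - 1) (N - 1) (by omega) (by omega)
          hC (by omega) (by omega) (by omega) (by omega)).string.to rfl (by omega)
          (by omega) rfl (by omega) rfl (by omega)

theorem star3 : ∀ n : ℕ,
    (∀ (H : ℕ) (C : Multiset ℕ) (a b N : ℕ), H + C.sum + 1 ≤ n → (∀ c ∈ C, 3 ≤ c) →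
      C.sum + Multiset.card C ≤ 2 * a + b → 3 * a + 2 * b + 2 * Multiset.card C + 1 ≤ H + C.sum →
      a + 4 * Multiset.card C + 4 ≤ N → 2 * a + b + 2 * Multiset.card C + 3 ≤ N + C.sum →
      WN H C a b N) ∧
    (∀ (H s : ℕ) (C : Multiset ℕ) (a b N : ℕ), H + s + C.sum ≤ n → 1 ≤ s → (∀ c ∈ C, 3 ≤ c) →
      s + 1 + C.sum + Multiset.card C ≤ 2 * a + b →
      3 * a + 2 * b + 2 * Multiset.card C + 3 ≤ H + s + C.sum →
      a + 4 * Multiset.card C + 8 ≤ N → 2 * a + b + 2 * Multiset.card C + 5 ≤ N + s + C.sum →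
      W 3 H s C a b N) := by
  intro n
  induction n using Nat.strong_induction_on with
  | _ n ih =>
  constructor
  · intro H C a b N hn hC h1 h2 h3 h4
    rcases Nat.eq_zero_or_pos b with rfl | hb
    · exact (star4 _).1 H C a N le_rfl hC (by omega) (by omega) (by omega) (by omega)
    rcases Multiset.empty_or_exists_mem C with rfl | ⟨c, hc⟩
    · simp only [Multiset.sum_zero, Multiset.card_zero] at h1 h2 h3 h4
      exact hub_only (a + b) H a b N le_rfl (by omega) (by omega)
    · obtain ⟨C', rfl⟩ := Multiset.exists_cons_of_mem hc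
      have hc3 := hC c (by simp)
      simp only [Multiset.sum_cons, Multiset.card_cons] at hn h1 h2 h3 h4
      exact ((ih (n - 1) (by omega)).2 H c C' a b N (by omega) (by omega)
        (fun c' h => hC c' (Multiset.mem_cons_of_mem h)) (by omega) (by omega) (by omega)
        (by omega)).fresh3
  · intro H s C a b N hn hs hC h1 h2 h3 h4
    rcases Nat.lt_or_ge s 2 with hs1 | hs2
    · obtain rfl : s = 1 := by omega
      exact ((ih (n - 1) (by omega)).1 (H - 1) C a b N (by omega) hC (by omega) (by omega)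
        (by omega) (by omega)).fin3.to rfl (by omega) rfl rfl rfl rfl (by omega)
    · rcases Nat.eq_zero_or_pos b with rfl | hb
      · exact ((star4 _).2 (H - 2) (s - 1) C (a - 1) N le_rfl (by omega) hC (by omega) (by omega)
          (by omega) (by omega)).switch.to rfl (by omega) (by omega) rfl (by omega) rfl le_rfl
      · exact ((ih (n - 1) (by omega)).2 (H - 1) (s - 1) C a (b - 1) N (by omega) (by omega) hC
          (by omega) (by omega) (by omega) (by omega)).quad.to rfl (by omega) (by omega) rfl rfl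
          (by omega) le_rfl

end Pool.Agent.Helper79.HD
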