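import Pool.Agent.Helper79.HD.Phase

/-!
# Few pentagons: all the faces
-/

namespace Pool.Agent.Helper79.HD

open Finset Pool.Agent.Helper79.HX

/-- The faces `K + 4` and `c + 4`, `c ∈ C`; at most `N` hexagons. -/
theorem all_faces {K : ℕ} {C : Multiset ℕ} {a b N : ℕ} (hK : 3 ≤ K)
    (hC : ∀ c ∈ C, 3 ≤ c ∧ c ≤ K) (h1 : 3 * a + 2 * b + 2 * Multiset.card C + 11 ≤ K + C.sum)
    (h2 : a + 10 * Multiset.card C + 200 ≤ N)
    (h3 : 2 * a + b + 2 * Multiset.card C + 6 ≤ N + C.sum) :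
    ∃ n ≤ N, ∀ M, Conf 5 3 4 M → ∃ p, Fin' (M + {K + 4} + C.map (fun c => c + 4) + sml a b p n) := by
  rcases Multiset.empty_or_exists_mem C with rfl | ⟨c, hc⟩
  · rw [Multiset.sum_zero, Multiset.card_zero] at h1 h3
    obtain ⟨n, hn, h⟩ := hub_only (a + b) (K - 1) a b N le_rfl (by omega) (by omega)
    refine ⟨n, hn, fun M hM => ?_⟩
    obtain ⟨p, hp⟩ := h 5 M hM
    have e : 5 + (K - 1) = K + 4 := by omega
    rw [e] at hp
    exact ⟨p, hp⟩
  · obtain ⟨C', rfl⟩ := Multiset.exists_cons_of_mem hc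
    have hc3 := hC c (by simp)
    simp only [Multiset.sum_cons, Multiset.card_cons] at h1 h2 h3
    obtain ⟨n, hn, h⟩ := phase (Multiset.card C') (c - 1) K C' a b N rfl (by omega) (by omega)
      (fun c' h => hC c' (Multiset.mem_cons_of_mem h)) (by omega) (by omega) (by omega) (by omega)
    refine ⟨n, hn, fun M hM => ?_⟩
    obtain ⟨p, hp⟩ := h 5 M hM
    have e : 5 + (c - 1) = c + 4 := by omega
    rw [e] at hp
    refine ⟨p, hp.congr ?_⟩
    intro k
    simp only [sml, Multiset.count_add, Multiset.count_cons, Multiset.count_singleton,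
      Multiset.map_cons]
    omega

end Pool.Agent.Helper79.HD
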